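import Mathlib

/-!
# A common adapted basis for two weighted flags
-/

open Finset Matrix

namespace Pool.Agent.Helper11.GIT

variable {κ : Type*} [Field κ] {ι : Type*}

/-- the matrix `k` does not decrease the weights -/
def LeW (k : Matrix ι ι κ) (γ α : ι → ℝ) : Prop := ∀ a b, k a b ≠ 0 → γ b ≤ α a

variable [Fintype ι]

lemma LeW.mul {k l : Matrix ι ι κ} {α β γ : ι → ℝ} (hl : LeW l β γ) (hk : LeW k α β) :
    LeW (l * k) α γ := by
  intro a b hab
  rw [Matrix.mul_apply] at hab
  obtain ⟨c, -, hc⟩ := exists_ne_zero_of_sum_ne_zero hab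
  exact (hk c b (right_ne_zero_of_mul hc)).trans (hl a c (left_ne_zero_of_mul hc))

variable [DecidableEq ι]

omit [Fintype ι] in
lemma LeW.one (γ : ι → ℝ) : LeW (1 : Matrix ι ι κ) γ γ := by
  intro a b hab
  by_cases h : a = b
  · rw [h]
  · exact absurd (Matrix.one_apply_ne h) hab

/-- a permutation in the support of an invertible matrix -/
lemma exists_perm {k : Matrix ι ι κ} (hk : k.det ≠ 0) :
    ∃ π : Equiv.Perm ι, ∀ b, k (π b) b ≠ 0 := by
  rw [Matrix.det_apply] at hk
  obtain ⟨π, -, hπ⟩ := exists_ne_zero_of_sum_ne_zero hk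
  refine ⟨π, fun b hb => hπ ?_⟩
  have h0 : ∏ i, k (π i) i = 0 := prod_eq_zero (f := fun i => k (π i) i) (mem_univ b) hb
  rw [h0, smul_zero]

lemma perm_of_leW {k l : Matrix ι ι κ} (hk : k.det ≠ 0) (hl : l.det ≠ 0) {α γ : ι → ℝ}
    (h1 : LeW k γ α) (h2 : LeW l α γ) : ∃ π : Equiv.Perm ι, ∀ b, α (π b) = γ b := by
  obtain ⟨π, hπ⟩ := exists_perm hk
  obtain ⟨ρ, hρ⟩ := exists_perm hl
  refine ⟨π, ?_⟩
  have h3 : ∀ b, γ b ≤ α (π b) := fun b => h1 _ _ (hπ b)
  have h4 : ∑ b, α (π b) ≤ ∑ b, γ b := by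
    calc ∑ b, α (π b) = ∑ b, α b := Equiv.sum_comp π α
      _ ≤ ∑ b, γ (ρ b) := sum_le_sum fun b _ => h2 _ _ (hρ b)
      _ = ∑ b, γ b := Equiv.sum_comp ρ γ
  have h5 := (sum_eq_sum_iff_of_le (fun b _ => h3 b)).mp
    (le_antisymm (sum_le_sum fun b _ => h3 b) h4)
  exact fun b => (h5 b (mem_univ b)).symm

/-- the identity matrix, with the column `a₀` replaced by `s` -/
def colMat (a₀ : ι) (s : ι → κ) : Matrix ι ι κ := (1 : Matrix ι ι κ).updateCol a₀ s

lemma mul_colMat_self (k : Matrix ι ι κ) (a₀ : ι) (s : ι → κ) (b : ι) :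
    (k * colMat a₀ s) b a₀ = (k *ᵥ s) b := by
  rw [Matrix.mul_apply, Matrix.mulVec, dotProduct]
  refine sum_congr rfl fun c _ => ?_
  rw [colMat, Matrix.updateCol_self]

lemma mul_colMat_ne (k : Matrix ι ι κ) {a₀ a : ι} (s : ι → κ) (h : a ≠ a₀) (b : ι) :
    (k * colMat a₀ s) b a = k b a := by
  rw [Matrix.mul_apply]
  rw [sum_eq_single a]
  · rw [colMat, Matrix.updateCol_ne h, Matrix.one_apply_eq, mul_one]
  · intro c _ hc
    rw [colMat, Matrix.updateCol_ne h, Matrix.one_apply_ne hc, mul_zero]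
  · intro h'; exact absurd (mem_univ a) h'

/-- the column of the inverse -/
noncomputable def invCol (a₀ : ι) (s : ι → κ) : ι → κ :=
  fun a => if a = a₀ then (s a₀)⁻¹ else -(s a / s a₀)

lemma colMat_mul_invCol {a₀ : ι} {s : ι → κ} (hs : s a₀ ≠ 0) :
    colMat a₀ s * colMat a₀ (invCol a₀ s) = 1 := by
  ext b a
  by_cases h : a = a₀
  · subst h
    rw [mul_colMat_self, Matrix.mulVec, dotProduct, ← add_sum_erase _ _ (mem_univ a)]
    have h1 : ∀ c ∈ univ.erase a, colMat a s b c * invCol a s c =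
        if b = c then -(s c / s a) else 0 := by
      intro c hc
      have hca : c ≠ a := (mem_erase.mp hc).1
      rw [colMat, Matrix.updateCol_ne hca, invCol, if_neg hca, Matrix.one_apply]
      split_ifs <;> simp
    rw [sum_congr rfl h1, sum_ite_eq]
    have h2 : colMat a s b a = s b := by rw [colMat, Matrix.updateCol_self]
    rw [h2, invCol, if_pos rfl]
    by_cases hb : b = a
    · subst hb
      rw [if_neg (notMem_erase b univ), Matrix.one_apply_eq, add_zero, mul_inv_cancel₀ hs]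
    · rw [if_pos (mem_erase.mpr ⟨hb, mem_univ b⟩), Matrix.one_apply_ne hb]
      ring
  · rw [mul_colMat_ne _ _ h, colMat, Matrix.updateCol_ne h]

/-- **A common adapted basis.** -/
theorem exists_common (h h' : Matrix ι ι κ) (hh : h.det ≠ 0) (hh' : h'.det ≠ 0)
    (γ γ' : ι → ℝ) : ∃ (g : Matrix ι ι κ) (α : ι → ℝ), g.det ≠ 0 ∧ LeW (g * h⁻¹) γ γ ∧
      LeW (h' * g⁻¹) α γ' ∧ LeW (g * h'⁻¹) γ' α ∧ ∃ π : Equiv.Perm ι, ∀ b, α (π b) = γ' b := by
  classical
  rcases isEmpty_or_nonempty ι with hι | hι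
  · exact ⟨1, γ', by simp, fun a => isEmptyElim a, fun a => isEmptyElim a,
      fun a => isEmptyElim a, 1, fun b => isEmptyElim b⟩
  let F : Set (ι → ℝ) := {α | (∀ a, α a ∈ Set.range γ') ∧ ∃ g : Matrix ι ι κ, g.det ≠ 0 ∧
    LeW (g * h⁻¹) γ γ ∧ LeW (h' * g⁻¹) α γ'}
  have hFfin : F.Finite := by
    refine (Set.Finite.pi' fun _ : ι => Set.finite_range γ').subset ?_
    intro α hα a
    exact hα.1 a
  have hFne : F.Nonempty := by
    obtain ⟨b₀, -, hb₀⟩ := exists_min_image univ γ' univ_nonempty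
    refine ⟨fun _ => γ' b₀, fun _ => ⟨b₀, rfl⟩, h, hh, ?_, fun a b _ => hb₀ a (mem_univ a)⟩
    rw [Matrix.mul_nonsing_inv _ (isUnit_iff_ne_zero.mpr hh)]
    exact LeW.one γ
  obtain ⟨α, ⟨hαr, g, hg, hgh, hgα⟩, hmax⟩ := Set.exists_max_image F (fun α => ∑ a, α a) hFfin hFne
  have hgu : IsUnit g.det := isUnit_iff_ne_zero.mpr hg
  have hhu' : IsUnit h'.det := isUnit_iff_ne_zero.mpr hh'
  have key : LeW (g * h'⁻¹) γ' α := by
    by_contra hcon
    unfold LeW at hcon
    push Not at hcon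
    obtain ⟨a₁, b₀, hk, hlt⟩ := hcon
    set k := g * h'⁻¹ with hkdef
    set A := univ.filter fun a => k a b₀ ≠ 0 with hA
    have ha₁ : a₁ ∈ A := by rw [hA, mem_filter]; exact ⟨mem_univ _, hk⟩
    obtain ⟨a₂, ha₂, hmin⟩ := exists_min_image A α ⟨a₁, ha₁⟩
    set m := α a₂ with hm
    set S := A.filter fun a => α a = m with hS
    have ha₂S : a₂ ∈ S := by rw [hS, mem_filter]; exact ⟨ha₂, rfl⟩
    obtain ⟨a₀, ha₀, hγmin⟩ := exists_min_image S γ ⟨a₂, ha₂S⟩
    have hSA : ∀ a ∈ S, k a b₀ ≠ 0 ∧ α a = m := by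
      intro a ha
      rw [hS, mem_filter, hA, mem_filter] at ha
      exact ⟨ha.1.2, ha.2⟩
    set s : ι → κ := fun a => if a ∈ S then k a b₀ else 0 with hs
    have hs0 : s a₀ ≠ 0 := by
      rw [hs]; dsimp only; rw [if_pos ha₀]; exact (hSA a₀ ha₀).1
    have hsS : ∀ a, s a ≠ 0 → a ∈ S := by
      intro a ha
      by_contra hcon
      exact ha (if_neg hcon)
    set v : ι → κ := (h' * g⁻¹) *ᵥ s with hv
    -- `v` is not zero
    have hinv : (g * h'⁻¹) * (h' * g⁻¹) = 1 := by
      rw [Matrix.mul_assoc, ← Matrix.mul_assoc h'⁻¹, Matrix.nonsing_inv_mul _ hhu',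
        Matrix.one_mul, Matrix.mul_nonsing_inv _ hgu]
    have hinv' : (h' * g⁻¹) * (g * h'⁻¹) = 1 := by
      rw [Matrix.mul_assoc, ← Matrix.mul_assoc g⁻¹, Matrix.nonsing_inv_mul _ hgu,
        Matrix.one_mul, Matrix.mul_nonsing_inv _ hhu']
    have hv0 : ∃ b, v b ≠ 0 := by
      by_contra hcon
      push Not at hcon
      have h1 : v = 0 := funext hcon
      have h2 : s = (g * h'⁻¹) *ᵥ v := by
        rw [hv, Matrix.mulVec_mulVec, hinv, Matrix.one_mulVec]
      rw [h1, Matrix.mulVec_zero] at h2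
      exact hs0 (congrFun h2 a₀)
    -- the support of `v`
    have hvm : ∀ b, v b ≠ 0 → m < γ' b := by
      intro b hb
      have h1 : v b = (1 : Matrix ι ι κ) b b₀ -
          ∑ a, (h' * g⁻¹) b a * (if a ∈ S then 0 else k a b₀) := by
        rw [← hinv', Matrix.mul_apply, ← sum_sub_distrib, hv, Matrix.mulVec, dotProduct]
        refine sum_congr rfl fun a _ => ?_
        rw [hs]
        dsimp only
        split_ifs <;> ring
      by_cases hbb : b = b₀
      · rw [hbb]
        exact lt_of_le_of_lt (hmin a₁ ha₁) hlt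
      · rw [Matrix.one_apply_ne hbb, zero_sub] at h1
        rw [h1, neg_ne_zero] at hb
        obtain ⟨a, -, ha⟩ := exists_ne_zero_of_sum_ne_zero hb
        have h2 := left_ne_zero_of_mul ha
        have h3 := right_ne_zero_of_mul ha
        by_cases haS : a ∈ S
        · exact absurd (if_pos haS) h3
        · rw [if_neg haS] at h3
          have haA : a ∈ A := by rw [hA, mem_filter]; exact ⟨mem_univ _, h3⟩
          have h4 : α a ≠ m := fun h => haS (by rw [hS, mem_filter]; exact ⟨haA, h⟩)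
          exact lt_of_lt_of_le (lt_of_le_of_ne (hmin a haA) (Ne.symm h4)) (hgα b a h2)
    obtain ⟨b₁, hb₁⟩ := hv0
    obtain ⟨b₂, hb₂, hb₂min⟩ := exists_min_image (univ.filter fun b => v b ≠ 0) γ'
      ⟨b₁, by rw [mem_filter]; exact ⟨mem_univ _, hb₁⟩⟩
    rw [mem_filter] at hb₂
    -- the new basis
    set E := colMat a₀ s with hE
    set E' := colMat a₀ (invCol a₀ s) with hE'
    have hEE' : E * E' = 1 := colMat_mul_invCol hs0
    have hE'E : E' * E = 1 := mul_eq_one_comm.mp hEE'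
    have hE'det : E'.det ≠ 0 := by
      intro h0
      have := congrArg Matrix.det hEE'
      rw [Matrix.det_mul, h0, mul_zero, Matrix.det_one] at this
      exact zero_ne_one this
    have hE'inv : E'⁻¹ = E := Matrix.inv_eq_right_inv hE'E
    have hleE' : LeW E' γ γ := by
      intro a b hab
      by_cases hb : b = a₀
      · subst hb
        rw [hE', colMat, Matrix.updateCol_self, invCol] at hab
        by_cases haa : a = b
        · rw [haa]
        · rw [if_neg haa, neg_ne_zero, div_ne_zero_iff] at hab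
          exact hγmin a (hsS a hab.1)
      · rw [hE', colMat, Matrix.updateCol_ne hb] at hab
        exact LeW.one γ a b hab
    have hnew : Function.update α a₀ (γ' b₂) ∈ F := by
      refine ⟨fun a => ?_, E' * g, ?_, ?_, ?_⟩
      · by_cases ha : a = a₀
        · subst ha
          rw [Function.update_self]
          exact ⟨b₂, rfl⟩
        · rw [Function.update_of_ne ha]
          exact hαr a
      · rw [Matrix.det_mul]
        exact mul_ne_zero hE'det hg
      · rw [Matrix.mul_assoc]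
        exact hleE'.mul hgh
      · rw [Matrix.mul_inv_rev, hE'inv, ← Matrix.mul_assoc]
        intro b a hba
        by_cases ha : a = a₀
        · subst ha
          rw [Function.update_self]
          rw [hE, mul_colMat_self] at hba
          exact hb₂min b (by rw [mem_filter]; exact ⟨mem_univ _, hba⟩)
        · rw [Function.update_of_ne ha]
          rw [hE, mul_colMat_ne _ _ ha] at hba
          exact hgα b a hba
    have h5 := hmax _ hnew
    have h6 : ∑ a, α a < ∑ a, Function.update α a₀ (γ' b₂) a := by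
      refine sum_lt_sum (fun a _ => ?_) ⟨a₀, mem_univ a₀, ?_⟩
      · by_cases ha : a = a₀
        · subst ha
          rw [Function.update_self, (hSA a ha₀).2]
          exact (hvm b₂ hb₂.2).le
        · rw [Function.update_of_ne ha]
      · rw [Function.update_self, (hSA a₀ ha₀).2]
        exact hvm b₂ hb₂.2
    exact absurd h5 (not_le.mpr h6)
  refine ⟨g, α, hg, hgh, hgα, key, perm_of_leW ?_ ?_ key hgα⟩
  · rw [Matrix.det_mul]
    exact mul_ne_zero hg (by
      rw [Matrix.det_nonsing_inv]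
      exact (isUnit_iff_ne_zero.mpr hh').ringInverse.ne_zero)
  · rw [Matrix.det_mul]
    exact mul_ne_zero hh' (by
      rw [Matrix.det_nonsing_inv]
      exact hgu.ringInverse.ne_zero)

end Pool.Agent.Helper11.GIT
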