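import Mathlib
import Pool.Agent.Helper10.GIT.Defs
import Pool.Agent.Helper11.GIT.Bruhat

/-!
# Uniqueness of the optimal weighted flag
-/

open Finset Matrix

namespace Pool.Agent.Helper11.GIT

open Pool.Agent.Helper10.GIT

variable {m : ℕ} {n : Fin m → ℕ}

/-! ### weights -/

lemma inner_wt (w : Idx n) (γ : WSpace n) : inner ℝ (wt w) γ = ∑ t, γ ⟨t, w t⟩ := by
  rw [PiLp.inner_apply, Fintype.sum_sigma]
  refine sum_congr rfl fun t _ => ?_
  rw [sum_eq_single (w t)]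
  · simp [wt]
  · intro i _ hi
    simp [wt, Ne.symm hi]
  · intro h; exact absurd (mem_univ _) h

lemma inner_unif (γ : WSpace n) (hγ : ∀ t, ∑ i, γ ⟨t, i⟩ = 0) : inner ℝ (unif n) γ = 0 := by
  rw [PiLp.inner_apply, Fintype.sum_sigma]
  refine sum_eq_zero fun t _ => ?_
  have h1 : ∀ i, inner ℝ ((unif n) ⟨t, i⟩) (γ ⟨t, i⟩) = (n t : ℝ)⁻¹ * γ ⟨t, i⟩ := by
    intro i
    simp [unif, mul_comm]
  rw [sum_congr rfl fun i _ => h1 i, ← mul_sum, hγ, mul_zero]

lemma slot_wt (w : Idx n) (t : Fin m) : ∑ i, (wt w) ⟨t, i⟩ = 1 := by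
  rw [sum_eq_single (w t)]
  · simp [wt]
  · intro i _ hi
    simp [wt, Ne.symm hi]
  · intro h; exact absurd (mem_univ _) h

lemma slot_unif (hn : ∀ t, 0 < n t) (t : Fin m) : ∑ i, (unif n) ⟨t, i⟩ = 1 := by
  have h0 : (n t : ℝ) ≠ 0 := Nat.cast_ne_zero.mpr (hn t).ne'
  simp [unif, h0]

lemma slot_hull {S : Set (Idx n)} {q : WSpace n} (hq : q ∈ convexHull ℝ (wt '' S)) (t : Fin m) :
    ∑ i, q ⟨t, i⟩ = 1 := by
  have h1 : convexHull ℝ (wt '' S) ⊆ {q : WSpace n | ∑ i, q ⟨t, i⟩ = 1} := by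
    refine convexHull_min ?_ ?_
    · rintro _ ⟨w, _, rfl⟩
      exact slot_wt w t
    · intro x hx y hy a b _ _ hab
      simp only [Set.mem_ofPred_eq, PiLp.add_apply, PiLp.smul_apply, smul_eq_mul] at hx hy ⊢
      rw [sum_add_distrib, ← mul_sum, ← mul_sum, hx, hy, mul_one, mul_one, hab]
  exact h1 hq

lemma inner_hull {S : Set (Idx n)} {β : WSpace n} {c : ℝ}
    (h : ∀ w ∈ S, c ≤ inner ℝ (wt w) β) {q : WSpace n} (hq : q ∈ convexHull ℝ (wt '' S)) :
    c ≤ inner ℝ q β := by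
  have h1 : convexHull ℝ (wt '' S) ⊆ {q : WSpace n | c ≤ inner ℝ q β} := by
    refine convexHull_min ?_ ?_
    · rintro _ ⟨w, hw, rfl⟩
      exact h w hw
    · intro x hx y hy a b ha hb hab
      simp only [Set.mem_ofPred_eq] at hx hy ⊢
      rw [inner_add_left, real_inner_smul_left, real_inner_smul_left]
      calc c = a * c + b * c := by rw [← add_mul, hab, one_mul]
        _ ≤ _ := add_le_add (mul_le_mul_of_nonneg_left hx ha) (mul_le_mul_of_nonneg_left hy hb)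
  exact h1 hq

/-- the nearest point and the optimal weight -/
lemma exists_nearest (hn : ∀ t, 0 < n t) {S : Set (Idx n)} (hS : S.Nonempty) :
    ∃ γ : WSpace n, ‖γ‖ = Metric.infDist (unif n) (convexHull ℝ (wt '' S)) ∧
      (∀ t, ∑ i, γ ⟨t, i⟩ = 0) ∧ ∀ w ∈ S, ‖γ‖ ^ 2 ≤ inner ℝ (wt w) γ := by
  set C := convexHull ℝ (wt '' S) with hC
  have hcomp : IsCompact C := (Set.toFinite (wt '' S)).isCompact_convexHull (𝕜 := ℝ)
  have hne : C.Nonempty := (hS.image wt).convexHull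
  obtain ⟨p, hp, hdist⟩ := hcomp.exists_infDist_eq_dist hne (unif n)
  have hslot : ∀ t, ∑ i, (p - unif n) ⟨t, i⟩ = 0 := by
    intro t
    simp only [PiLp.sub_apply, sum_sub_distrib]
    rw [slot_hull hp t, slot_unif hn t, sub_self]
  refine ⟨p - unif n, ?_, hslot, fun w hw => ?_⟩
  · rw [hdist, dist_comm, dist_eq_norm]
  · have h1 : ‖unif n - p‖ = ⨅ q : C, ‖unif n - q‖ := by
      rw [← dist_eq_norm, ← hdist, Metric.infDist_eq_iInf]
      exact iInf_congr fun q => dist_eq_norm _ _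
    have h2 := (norm_eq_iInf_iff_real_inner_le_zero (convex_convexHull ℝ _) hp).mp h1
      (wt w) (subset_convexHull ℝ _ ⟨w, hw, rfl⟩)
    have h3 : inner ℝ (unif n) (p - unif n) = 0 := inner_unif _ hslot
    have h4 : inner ℝ (wt w) (p - unif n) = -inner ℝ (unif n - p) (wt w - p) +
        ‖p - unif n‖ ^ 2 + inner ℝ (unif n) (p - unif n) := by
      rw [← real_inner_self_eq_norm_sq]
      simp only [inner_sub_left, inner_sub_right]
      have e1 := real_inner_comm p (unif n)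
      have e2 := real_inner_comm (wt w) (unif n)
      have e3 := real_inner_comm (wt w) p
      linarith
    rw [h4, h3]
    linarith

/-- a lower bound for the distance -/
lemma le_infDist {S : Set (Idx n)} (hS : S.Nonempty) {β : WSpace n} {c : ℝ}
    (hβ : inner ℝ (unif n) β = 0) (h : ∀ w ∈ S, c ≤ inner ℝ (wt w) β) :
    c ≤ ‖β‖ * Metric.infDist (unif n) (convexHull ℝ (wt '' S)) := by
  set C := convexHull ℝ (wt '' S) with hC
  have hcomp : IsCompact C := (Set.toFinite (wt '' S)).isCompact_convexHull (𝕜 := ℝ)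
  have hne : C.Nonempty := (hS.image wt).convexHull
  obtain ⟨p, hp, hdist⟩ := hcomp.exists_infDist_eq_dist hne (unif n)
  rw [hdist, dist_comm, dist_eq_norm]
  calc c ≤ inner ℝ p β := inner_hull h hp
    _ = inner ℝ (p - unif n) β := by rw [inner_sub_left, hβ, sub_zero]
    _ ≤ ‖p - unif n‖ * ‖β‖ := real_inner_le_norm _ _
    _ = _ := mul_comm _ _

/-! ### supports -/

variable {κ : Type*} [Field κ]

lemma supp_nonempty {M : Set (Idx n → κ)} (hM : ∃ z ∈ M, z ≠ 0) {h : Mats n κ}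
    (hh : ∀ t, (h t).det ≠ 0) : (supp h M).Nonempty := by
  obtain ⟨z, hz, hz0⟩ := hM
  by_contra hcon
  rw [Set.not_nonempty_iff_eq_empty] at hcon
  apply hz0
  have h1 : act h z = 0 := by
    funext w
    by_contra hw
    have : w ∈ supp h M := ⟨z, hz, hw⟩
    rw [hcon] at this
    exact this
  have h2 : (fun t => (h t)⁻¹ : Mats n κ) * h = 1 := by
    funext t
    exact Matrix.nonsing_inv_mul _ (isUnit_iff_ne_zero.mpr (hh t))
  rw [← act_one z, ← h2, act_mul, h1, map_zero]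

lemma supp_transition {M : Set (Idx n → κ)} {g k h : Mats n κ} (hg : g = k * h) {w : Idx n}
    (hw : w ∈ supp g M) : ∃ w' ∈ supp h M, ∀ t, k t (w t) (w' t) ≠ 0 := by
  obtain ⟨z, hz, hw⟩ := hw
  rw [hg, act_mul, act_apply] at hw
  obtain ⟨w', -, hw'⟩ := exists_ne_zero_of_sum_ne_zero hw
  exact ⟨w', ⟨z, hz, right_ne_zero_of_mul hw'⟩, fun t =>
    (prod_ne_zero_iff.mp (left_ne_zero_of_mul hw')) t (mem_univ t)⟩

/-- **Kempf's theorem**, for products of general linear groups acting on tensors: the group which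
stabilises a destabilised set of tensors acts reducibly on one of the factors. -/
theorem exists_invariant (hn : ∀ t, 0 < n t) {M : Set (Idx n → κ)} (hM : ∃ z ∈ M, z ≠ 0)
    {h₀ : Mats n κ} (hh₀ : ∀ t, (h₀ t).det ≠ 0) (hbad : Bad h₀ M) (Γ : Set (Mats n κ))
    (hΓ : ∀ ρ ∈ Γ, (∀ t, (ρ t).det ≠ 0) ∧ (∀ z ∈ M, act ρ z ∈ M) ∧
      ∀ z ∈ M, ∃ z' ∈ M, act ρ z' = z) :
    ∃ (t : Fin m) (F : Submodule κ (Fin (n t) → κ)), F ≠ ⊥ ∧ F ≠ ⊤ ∧
      ∀ ρ ∈ Γ, ∀ x ∈ F, (ρ t).mulVec x ∈ F := by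
  classical
  -- optimal bases
  let 𝒮 : Set (Set (Idx n)) := {S | ∃ h : Mats n κ, (∀ t, (h t).det ≠ 0) ∧ S = supp h M}
  obtain ⟨_, ⟨h, hh, rfl⟩, hmax⟩ := Set.exists_max_image 𝒮
    (fun S => Metric.infDist (unif n) (convexHull ℝ (wt '' S))) (Set.toFinite _)
    ⟨supp h₀ M, h₀, hh₀, rfl⟩
  obtain ⟨γ, hγ, hγ0, hγS⟩ := exists_nearest hn (supp_nonempty hM hh)
  have hD : 0 < ‖γ‖ := by
    rw [hγ]
    refine lt_of_lt_of_le ?_ (hmax _ ⟨h₀, hh₀, rfl⟩)
    have hcl : IsClosed (convexHull ℝ (wt '' supp h₀ M)) :=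
      ((Set.toFinite (wt '' supp h₀ M)).isCompact_convexHull (𝕜 := ℝ)).isClosed
    exact (hcl.notMem_iff_infDist_pos ((supp_nonempty hM hh₀).image wt).convexHull).mp hbad
  have hu : ∀ {k : ℕ} {A : Matrix (Fin k) (Fin k) κ}, A.det ≠ 0 → IsUnit A.det :=
    fun h => isUnit_iff_ne_zero.mpr h
  -- the stabiliser preserves the weighted flags
  have key : ∀ ρ ∈ Γ, ∀ t, LeW (h t * ρ t * (h t)⁻¹) (fun i => γ ⟨t, i⟩) (fun i => γ ⟨t, i⟩) := by
    intro ρ hρ
    obtain ⟨hρdet, hρM, hρM'⟩ := hΓ ρ hρ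
    have hdet' : ∀ t, (h t * ρ t).det ≠ 0 := fun t => by
      rw [Matrix.det_mul]; exact mul_ne_zero (hh t) (hρdet t)
    have hsupp : ∀ w ∈ supp (h * ρ) M, w ∈ supp h M := by
      rintro w ⟨z, hz, hw⟩
      rw [act_mul] at hw
      exact ⟨act ρ z, hρM z hz, hw⟩
    choose g α hg hgh hgα hgα' hπ using fun t => exists_common (h t) (h t * ρ t) (hh t) (hdet' t)
      (fun i => γ ⟨t, i⟩) (fun i => γ ⟨t, i⟩)
    choose π hπ using hπ
    -- the second weight
    set a : WSpace n := WithLp.toLp 2 fun s => α s.1 s.2 with ha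
    have haa : ∀ t i, a ⟨t, i⟩ = α t i := fun t i => rfl
    have hγg : ∀ w ∈ supp g M, ‖γ‖ ^ 2 ≤ inner ℝ (wt w) γ := by
      intro w hw
      obtain ⟨w', hw', hk⟩ := supp_transition (k := fun t => g t * (h t)⁻¹) (h := h) (by
        funext t
        change g t = g t * (h t)⁻¹ * h t
        rw [Matrix.mul_assoc, Matrix.nonsing_inv_mul _ (hu (hh t)), Matrix.mul_one]) hw
      refine (hγS w' hw').trans ?_
      rw [inner_wt, inner_wt]
      exact sum_le_sum fun t _ => hgh t _ _ (hk t)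
    have hag : ∀ w ∈ supp g M, ‖γ‖ ^ 2 ≤ inner ℝ (wt w) a := by
      intro w hw
      obtain ⟨w', hw', hk⟩ := supp_transition (k := fun t => g t * (h t * ρ t)⁻¹) (h := h * ρ) (by
        funext t
        change g t = g t * (h t * ρ t)⁻¹ * (h t * ρ t)
        rw [Matrix.mul_assoc, Matrix.nonsing_inv_mul _ (hu (hdet' t)), Matrix.mul_one]) hw
      refine (hγS w' (hsupp w' hw')).trans ?_
      rw [inner_wt, inner_wt]
      exact sum_le_sum fun t _ => hgα' t _ _ (hk t)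
    have ha0 : ∀ t, ∑ i, a ⟨t, i⟩ = 0 := by
      intro t
      rw [← hγ0 t, ← Equiv.sum_comp (π t)]
      exact sum_congr rfl fun i _ => hπ t i
    have hnorm : ‖a‖ ^ 2 = ‖γ‖ ^ 2 := by
      rw [EuclideanSpace.real_norm_sq_eq, EuclideanSpace.real_norm_sq_eq, Fintype.sum_sigma,
        Fintype.sum_sigma]
      refine sum_congr rfl fun t _ => ?_
      rw [← Equiv.sum_comp (π t)]
      refine sum_congr rfl fun i _ => ?_
      rw [haa, hπ t i]
    -- the average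
    have hag' : a = γ := by
      by_contra hne
      set β : WSpace n := (2 : ℝ)⁻¹ • (γ + a) with hβ
      have hβu : inner ℝ (unif n) β = 0 := by
        rw [hβ, inner_smul_right, inner_add_right, inner_unif _ hγ0, inner_unif _ ha0, add_zero,
          mul_zero]
      have hβS : ∀ w ∈ supp g M, ‖γ‖ ^ 2 ≤ inner ℝ (wt w) β := by
        intro w hw
        rw [hβ, inner_smul_right, inner_add_right]
        have h1 := hγg w hw
        have h2 := hag w hw
        linarith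
      have h1 := le_infDist (supp_nonempty hM hg) hβu hβS
      have h2 := hmax _ ⟨g, hg, rfl⟩
      rw [← hγ] at h2
      have h3 : ‖β‖ ^ 2 < ‖γ‖ ^ 2 := by
        have h4 : 0 < ‖γ - a‖ ^ 2 := by
          have : γ - a ≠ 0 := sub_ne_zero.mpr (Ne.symm hne)
          positivity
        have h5 := parallelogram_law_with_norm ℝ γ a
        have h6 : ‖β‖ ^ 2 = 4⁻¹ * ‖γ + a‖ ^ 2 := by
          rw [hβ, norm_smul, mul_pow]
          norm_num
        rw [h6]
        nlinarith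
      have h4 : ‖β‖ < ‖γ‖ := lt_of_pow_lt_pow_left₀ 2 hD.le h3
      have h5 : ‖γ‖ ^ 2 ≤ ‖β‖ * ‖γ‖ := h1.trans (mul_le_mul_of_nonneg_left h2 (norm_nonneg β))
      have h6 : ‖β‖ * ‖γ‖ < ‖γ‖ ^ 2 := by
        rw [sq]; exact mul_lt_mul_of_pos_right h4 hD
      exact absurd h5 (not_le.mpr h6)
    intro t
    have hαt : α t = fun i => γ ⟨t, i⟩ := by
      funext i
      rw [← haa, hag']
    have h1 := (hgα t)
    rw [hαt] at h1
    have h2 := h1.mul (hgh t)
    have h3 : h t * ρ t * (g t)⁻¹ * (g t * (h t)⁻¹) = h t * ρ t * (h t)⁻¹ := by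
      rw [Matrix.mul_assoc, ← Matrix.mul_assoc (g t)⁻¹, Matrix.nonsing_inv_mul _ (hu (hg t)),
        Matrix.one_mul]
    rwa [h3] at h2
  -- a slot in which the weight is not zero
  have hγne : γ ≠ 0 := norm_pos_iff.mp hD
  obtain ⟨⟨t, i₀⟩, hti⟩ : ∃ s, γ s ≠ 0 := by
    by_contra hcon
    push Not at hcon
    exact hγne (by ext s; exact hcon s)
  obtain ⟨i₁, -, hi₁⟩ := exists_max_image univ (fun i => γ ⟨t, i⟩) ⟨i₀, mem_univ i₀⟩
  obtain ⟨i₂, hi₂⟩ : ∃ i₂, γ ⟨t, i₂⟩ < γ ⟨t, i₁⟩ := by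
    by_contra hcon
    push Not at hcon
    have h1 : ∀ i, γ ⟨t, i⟩ = γ ⟨t, i₁⟩ := fun i => le_antisymm (hi₁ i (mem_univ i)) (hcon i)
    have h2 := hγ0 t
    rw [sum_congr rfl fun i _ => h1 i, sum_const, card_univ, Fintype.card_fin, nsmul_eq_mul]
      at h2
    rcases mul_eq_zero.mp h2 with h3 | h3
    · exact absurd h3 (Nat.cast_ne_zero.mpr (hn t).ne')
    · exact hti (by rw [h1, h3])
  refine ⟨t,
    { carrier := {x | ∀ b, γ ⟨t, b⟩ < γ ⟨t, i₁⟩ → (h t *ᵥ x) b = 0}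
      add_mem' := fun {x y} hx hy b hb => by
        rw [Matrix.mulVec_add, Pi.add_apply, hx b hb, hy b hb, add_zero]
      zero_mem' := fun b _ => by rw [Matrix.mulVec_zero, Pi.zero_apply]
      smul_mem' := fun c x hx b hb => by
        rw [Matrix.mulVec_smul, Pi.smul_apply, hx b hb, smul_zero] }, ?_, ?_, ?_⟩
  · rw [Submodule.ne_bot_iff]
    refine ⟨(h t)⁻¹ *ᵥ (Pi.single i₁ 1), fun b hb => ?_, fun h0 => ?_⟩
    · rw [Matrix.mulVec_mulVec, Matrix.mul_nonsing_inv _ (hu (hh t)), Matrix.one_mulVec]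
      refine Pi.single_eq_of_ne ?_ _
      rintro rfl
      exact lt_irrefl _ hb
    · have h1 := congrArg (fun x => (h t) *ᵥ x) h0
      simp only [Matrix.mulVec_mulVec, Matrix.mul_nonsing_inv _ (hu (hh t)), Matrix.one_mulVec,
        Matrix.mulVec_zero] at h1
      have h2 := congrFun h1 i₁
      rw [Pi.single_eq_same] at h2
      exact one_ne_zero h2
  · intro htop
    have h1 : (h t)⁻¹ *ᵥ (Pi.single i₂ 1) ∈ (⊤ : Submodule κ (Fin (n t) → κ)) := trivial
    rw [← htop] at h1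
    have h2 := h1 i₂ hi₂
    rw [Matrix.mulVec_mulVec, Matrix.mul_nonsing_inv _ (hu (hh t)), Matrix.one_mulVec,
      Pi.single_eq_same] at h2
    exact one_ne_zero h2
  · intro ρ hρ x hx b hb
    have h1 : h t *ᵥ (ρ t *ᵥ x) = (h t * ρ t * (h t)⁻¹) *ᵥ (h t *ᵥ x) := by
      rw [Matrix.mulVec_mulVec, Matrix.mulVec_mulVec, Matrix.mul_assoc _ (h t)⁻¹,
        Matrix.nonsing_inv_mul _ (hu (hh t)), Matrix.mul_one]
    rw [h1, Matrix.mulVec, dotProduct]
    refine sum_eq_zero fun c _ => ?_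
    by_cases hc : (h t * ρ t * (h t)⁻¹) b c = 0
    · rw [hc, zero_mul]
    · rw [hx c (lt_of_le_of_lt (key ρ hρ t b c hc) hb), mul_zero]

end Pool.Agent.Helper11.GIT
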