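import Mathlib
import Pool.Agent.Helper10.GIT.Integral
import Pool.Agent.Helper11.GIT.Kempf

/-!
# The geometric invariant theory of tensors: conclusion
-/

universe u

open Finset

namespace Pool.Agent.Helper11.GIT

open Pool.Agent.Helper10.GIT

variable {m : ℕ} {n : Fin m → ℕ} {Ω : Type u} [Field Ω]

lemma act_injective {ρ : Mats n Ω} (hρ : ∀ t, (ρ t).det ≠ 0) : Function.Injective (act ρ) := by
  have h1 : (fun t => (ρ t)⁻¹ : Mats n Ω) * ρ = 1 := by
    funext t
    exact Matrix.nonsing_inv_mul _ (isUnit_iff_ne_zero.mpr (hρ t))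
  intro z z' h
  have h2 := congrArg (act (fun t => (ρ t)⁻¹ : Mats n Ω)) h
  rwa [← act_mul, ← act_mul, h1, act_one, act_one] at h2

/-- **Main theorem of this folder.** A space `M` of tensors which is killed by all products of
determinants, and which is stable under a set of tuples of invertible matrices whose components
span the matrix algebras, is zero. -/
theorem eq_zero_of_detZero [CharZero Ω] (hm : 0 < m) (hn : ∀ t, 0 < n t)
    (M : Submodule Ω (Idx n → Ω)) (hM : DetZero (M : Set (Idx n → Ω)))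
    (Γ : Set (Mats n Ω)) (hΓ : ∀ ρ ∈ Γ, ∀ t, (ρ t).det ≠ 0) (hΓM : ∀ ρ ∈ Γ, ∀ z ∈ M, act ρ z ∈ M)
    (hspan : ∀ t, Submodule.span Ω ((fun ρ : Mats n Ω => ρ t) '' Γ) = ⊤) :
    ∀ z ∈ M, z = 0 := by
  classical
  by_contra hne
  push Not at hne
  let e : Fin m → ℕ := fun t => ∏ s ∈ univ.erase t, n s
  have he : ∀ t, e t * n t = ∏ s, n s := fun t => prod_erase_mul _ _ (mem_univ t)
  have he0 : ∀ t, 0 < e t := fun t => prod_pos fun s _ => hn s
  have hN : 0 < ∏ s, n s := prod_pos fun s _ => hn s
  obtain ⟨κ, _, _, h, hh, hbad⟩ := exists_bad (M : Set (Idx n → Ω)) he hN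
    (not_isIntegral hM hm he0 hn)
  have hinj : Function.Injective (algebraMap Ω κ) := (algebraMap Ω κ).injective
  let ι : (Idx n → Ω) → Idx n → κ := fun z w => algebraMap Ω κ (z w)
  let Γ' : Set (Mats n κ) := (fun ρ t => (ρ t).map (algebraMap Ω κ)) '' Γ
  obtain ⟨t, F, hF0, hF1, hF⟩ := exists_invariant (M := ι '' (M : Set (Idx n → Ω))) hn
    (by
      obtain ⟨z, hz, hz0⟩ := hne
      refine ⟨ι z, ⟨z, hz, rfl⟩, fun h0 => hz0 ?_⟩
      funext w
      exact hinj (by rw [Pi.zero_apply, map_zero]; exact congrFun h0 w))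
    (h₀ := h) (fun t => (hh t).ne_zero) hbad Γ' (by
      rintro _ ⟨ρ, hρ, rfl⟩
      refine ⟨fun t => ?_, ?_, ?_⟩
      · have h1 : ((ρ t).map (algebraMap Ω κ)).det = algebraMap Ω κ (ρ t).det :=
          (RingHom.map_det _ _).symm
        change ((ρ t).map (algebraMap Ω κ)).det ≠ 0
        rw [h1]
        exact fun h0 => hΓ ρ hρ t (hinj (by rw [h0, map_zero]))
      · rintro _ ⟨z, hz, rfl⟩
        exact ⟨act ρ z, hΓM ρ hρ z hz, (act_map (algebraMap Ω κ) ρ z).symm⟩
      · rintro _ ⟨z, hz, rfl⟩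
        let f : M →ₗ[Ω] M := (act ρ).restrict (hΓM ρ hρ)
        have hf : Function.Injective f := by
          intro x y hxy
          exact Subtype.ext (act_injective (hΓ ρ hρ) (congrArg Subtype.val hxy))
        have hfs : Function.Surjective f := LinearMap.injective_iff_surjective.mp hf
        obtain ⟨z', hz'⟩ := hfs ⟨z, hz⟩
        refine ⟨ι z', ⟨z', z'.2, rfl⟩, ?_⟩
        have h2 : act ρ (z' : Idx n → Ω) = z := congrArg Subtype.val hz'
        have h3 := act_map (algebraMap Ω κ) ρ (z' : Idx n → Ω)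
        rw [h2] at h3
        exact h3)
  -- `F` is stable under all matrices
  let P : Submodule Ω (Matrix (Fin (n t)) (Fin (n t)) Ω) :=
    { carrier := {A | ∀ x ∈ F, (A.map (algebraMap Ω κ)).mulVec x ∈ F}
      add_mem' := by
        intro A B hA hB x hx
        rw [Matrix.map_add _ (fun a b => map_add _ a b), Matrix.add_mulVec]
        exact F.add_mem (hA x hx) (hB x hx)
      zero_mem' := by
        intro x _
        rw [Matrix.map_zero _ (map_zero _), Matrix.zero_mulVec]
        exact F.zero_mem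
      smul_mem' := by
        intro c A hA x hx
        have h1 : (c • A).map (algebraMap Ω κ) = algebraMap Ω κ c • A.map (algebraMap Ω κ) := by
          ext i j
          simp
        rw [h1, Matrix.smul_mulVec]
        exact F.smul_mem _ (hA x hx) }
  have hP : P = ⊤ := by
    rw [eq_top_iff, ← hspan t, Submodule.span_le]
    rintro _ ⟨ρ, hρ, rfl⟩ x hx
    exact hF _ ⟨ρ, hρ, rfl⟩ x hx
  obtain ⟨x, hxF, hx0⟩ := F.ne_bot_iff.mp hF0
  obtain ⟨j, hj⟩ := Function.ne_iff.mp hx0
  apply hF1
  rw [eq_top_iff]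
  rintro y -
  have h4 : ∀ i, Pi.single i (1 : κ) ∈ F := by
    intro i
    have h5 : (Matrix.single i j (1 : Ω)) ∈ P := hP ▸ Submodule.mem_top
    have h6 := h5 x hxF
    have h7 : ((Matrix.single i j (1 : Ω)).map (algebraMap Ω κ)).mulVec x = x j • Pi.single i 1 := by
      funext i'
      simp only [Matrix.mulVec, dotProduct, Matrix.map_apply, Matrix.single_apply, Pi.smul_apply,
        Pi.single_apply, smul_eq_mul]
      rw [Finset.sum_eq_single j]
      · by_cases hi : i = i'
        · subst hi; simp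
        · have : ¬ (i' = i) := Ne.symm hi
          simp [hi, this]
      · intro b _ hb
        have : ¬ (j = b) := Ne.symm hb
        simp [this]
      · intro h; exact absurd (mem_univ j) h
    rw [h7] at h6
    have h8 := F.smul_mem (x j)⁻¹ h6
    rwa [smul_smul, inv_mul_cancel₀ hj, one_smul] at h8
  have h9 : y = ∑ i, y i • Pi.single i (1 : κ) := by
    funext i
    simp [Finset.sum_apply, Pi.single_apply]
  rw [h9]
  exact F.sum_mem fun i _ => F.smul_mem _ (h4 i)

end Pool.Agent.Helper11.GIT
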